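import Mathlib

/-!
# Tverberg points and the core of a finite set (MP_8fed12_co): definitions
-/

set_option autoImplicit false

namespace Run7.h554.Tv

/-- the points of `ℝ^d` that lie in the convex hulls of all parts of some partition of `S` into
`τ` pairwise disjoint parts (the set `D_τ(S)`) -/
def tverbergPoints {d : ℕ} (τ : ℕ) (S : Finset (Fin d → ℝ)) : Set (Fin d → ℝ) :=
  {p | ∃ P : Fin τ → Set (Fin d → ℝ), (∀ i j, i ≠ j → Disjoint (P i) (P j)) ∧
    (⋃ i, P i) = (S : Set (Fin d → ℝ)) ∧ ∀ i, p ∈ convexHull ℝ (P i)}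

/-- the `σ`-core of `S`: the intersection of the convex hulls of the sets `S \ T`, `T ⊆ S`,
`|T| ≤ σ` -/
def core {d : ℕ} (σ : ℕ) (S : Finset (Fin d → ℝ)) : Set (Fin d → ℝ) :=
  {p | ∀ T : Finset (Fin d → ℝ), T ⊆ S → T.card ≤ σ →
    p ∈ convexHull ℝ ((S : Set (Fin d → ℝ)) \ (T : Set (Fin d → ℝ)))}

end Run7.h554.Tv
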