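import Pool.Agent.Run7.h554.Tv.Gen

/-!
# Nine points in space
-/

set_option autoImplicit false

namespace Run7.h554.Tv

open Finset

/-- the nine points -/
def s : Fin 9 → Fin 3 → ℤ :=
  ![![-2, 3, 1], ![2, 0, 1], ![4, -1, 3], ![4, 4, 0], ![-1, 2, -2], ![1, 2, -4], ![-2, -1, 1],
    ![4, -1, 4], ![0, -2, -3]]

/-- six triples of affine functionals; each triple adds up to a positive multiple of `x - 1` -/
def cert : Fin 6 → Fin 3 → Fin 4 → ℤ :=
  ![![![-2, 2, 2, 4], ![4, -2, -2, -6], ![0, 0, 0, 0]],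
    ![![8, -1, 0, -15], ![-1, 0, 0, 4], ![0, 1, 0, 4]],
    ![![3, -1, -3, -1], ![0, 1, 3, -2], ![0, 0, 0, 0]],
    ![![0, 0, 0, 0], ![7, 9, 2, -15], ![-3, -9, -2, 11]],
    ![![54, -205, -109, 19], ![25, 193, 93, -143], ![-27, 12, 16, 72]],
    ![![0, 0, 0, 1], ![-6, -8, 6, 6], ![11, 8, -6, -12]]]

/-- the multiples -/
def mult : Fin 6 → ℤ := ![2, 7, 3, 4, 52, 5]

/-- the value of an affine functional at an integer point -/
def aff (c : Fin 4 → ℤ) (x : Fin 3 → ℤ) : ℤ := c 0 * x 0 + c 1 * x 1 + c 2 * x 2 + c 3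

theorem cert_sum : ∀ t : Fin 6, (0 < mult t) ∧ (∀ j : Fin 4, cert t 0 j + cert t 1 j + cert t 2 j =
    ![mult t, 0, 0, -mult t] j) := by
  decide

/-- the permutations of the labels -/
def prm : Fin 6 → Fin 3 → Fin 3 := ![![0, 1, 2], ![0, 2, 1], ![1, 0, 2], ![1, 2, 0], ![2, 0, 1], ![2, 1, 0]]

/-- the mask: which labels are allowed for the point `k` by the certificate `t` -/
def ok (t : Fin 6) (π : Fin 6) (k : Fin 9) (i : Fin 3) : Bool :=
  decide (0 ≤ aff (cert t (prm π i)) (s k))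

/-- exhaustive search: `L` is the list of certificates that are compatible with the labels of the
points before `k` -/
def search : ℕ → List (Fin 6 × Fin 6) → ℕ → Bool
  | 0, L, _ => !L.isEmpty
  | n + 1, L, k => (!L.isEmpty) && (List.finRange 3).all fun i =>
      search n (L.filter fun c => if h : k < 9 then ok c.1 c.2 ⟨k, h⟩ i else true) (k + 1)

/-- all certificates -/
def allCert : List (Fin 6 × Fin 6) := (List.finRange 6).flatMap fun t => (List.finRange 6).map fun π => (t, π)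

set_option maxRecDepth 100000 in
theorem search_true : search 9 allCert 0 = true := by decide +kernel

theorem search_spec (n : ℕ) (L : List (Fin 6 × Fin 6)) (k : ℕ) (h : search n L k = true)
    (hk : k + n = 9) (l : Fin 9 → Fin 3) :
    ∃ c ∈ L, ∀ j : Fin 9, k ≤ j → ok c.1 c.2 j (l j) = true := by
  induction n generalizing L k with
  | zero =>
    simp only [search, Bool.not_eq_true', List.isEmpty_eq_false_iff] at h
    obtain ⟨c, hc⟩ := List.exists_mem_of_ne_nil L h
    refine ⟨c, hc, fun j hj => ?_⟩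
    have := j.2
    omega
  | succ n ih =>
    simp only [search, Bool.and_eq_true, List.all_eq_true] at h
    have hk9 : k < 9 := by omega
    obtain ⟨c, hc, hc'⟩ := ih _ (k + 1) (h.2 (l ⟨k, hk9⟩) (List.mem_finRange _)) (by omega)
    rw [List.mem_filter] at hc
    refine ⟨c, hc.1, fun j hj => ?_⟩
    rcases Nat.lt_or_ge k j with h1 | h1
    · exact hc' j h1
    · have h2 : j = ⟨k, hk9⟩ := Fin.ext (show (j : ℕ) = k by omega)
      have h3 := hc.2
      rw [dif_pos hk9] at h3
      rw [h2]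
      exact h3

theorem exists_cert (l : Fin 9 → Fin 3) :
    ∃ t π : Fin 6, ∀ j : Fin 9, 0 ≤ aff (cert t (prm π (l j))) (s j) := by
  obtain ⟨c, -, hc⟩ := search_spec 9 allCert 0 search_true (by norm_num) l
  exact ⟨c.1, c.2, fun j => of_decide_eq_true (hc j (Nat.zero_le _))⟩

/-- the real points -/
noncomputable def r (k : Fin 9) : Fin 3 → ℝ := fun i => (s k i : ℝ)

theorem r_inj : Function.Injective r := by
  intro a b h
  have h1 : s a = s b := by
    ext i
    have := congrFun h i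
    simp only [r] at this
    exact_mod_cast this
  have h2 : ∀ a b : Fin 9, s a = s b → a = b := by decide
  exact h2 a b h1

/-- the set of the nine points -/
noncomputable def S : Finset (Fin 3 → ℝ) := Finset.univ.map ⟨r, r_inj⟩

theorem mem_S (x : Fin 3 → ℝ) : x ∈ S ↔ ∃ k, r k = x := by simp [S]

/-- the real affine functional -/
noncomputable def raff (c : Fin 4 → ℤ) (x : Fin 3 → ℝ) : ℝ :=
  c 0 * x 0 + c 1 * x 1 + c 2 * x 2 + c 3

theorem raff_r (c : Fin 4 → ℤ) (k : Fin 9) : raff c (r k) = (aff c (s k) : ℝ) := by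
  simp only [raff, r, aff]
  push_cast
  ring

theorem convex_raff (c : Fin 4 → ℤ) : Convex ℝ {x : Fin 3 → ℝ | 0 ≤ raff c x} := by
  intro x hx y hy a b ha hb hab
  simp only [Set.mem_ofPred_eq, raff, Pi.add_apply, Pi.smul_apply, smul_eq_mul] at hx hy ⊢
  have h1 : (c 3 : ℝ) = a * c 3 + b * c 3 := by rw [← add_mul, hab, one_mul]
  have h2 := mul_nonneg ha hx
  have h3 := mul_nonneg hb hy
  nlinarith

/-- every Tverberg point of `S` has first coordinate at least `1` -/
theorem safe (p : Fin 3 → ℝ) (hp : p ∈ tverbergPoints 3 S) : 1 ≤ p 0 := by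
  obtain ⟨P, hd, hU, hp⟩ := hp
  have h1 : ∀ k : Fin 9, ∃ i, r k ∈ P i := by
    intro k
    have : r k ∈ (S : Set (Fin 3 → ℝ)) := Finset.mem_coe.mpr ((mem_S _).mpr ⟨k, rfl⟩)
    rw [← hU] at this
    exact Set.mem_iUnion.mp this
  choose l hl using h1
  obtain ⟨t, π, hc⟩ := exists_cert l
  have h2 : ∀ i, 0 ≤ raff (cert t (prm π i)) p := by
    intro i
    have h3 : P i ⊆ {x : Fin 3 → ℝ | 0 ≤ raff (cert t (prm π i)) x} := by
      intro x hx
      have hx' : x ∈ (S : Set (Fin 3 → ℝ)) := by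
        rw [← hU]
        exact Set.mem_iUnion.mpr ⟨i, hx⟩
      obtain ⟨k, rfl⟩ := (mem_S x).mp (Finset.mem_coe.mp hx')
      have h4 : l k = i := by
        by_contra hne
        exact Set.disjoint_left.mp (hd (l k) i hne) (hl k) hx
      rw [Set.mem_ofPred_eq, raff_r, ← h4]
      exact_mod_cast hc k
    exact convexHull_min h3 (convex_raff _) (hp i)
  have h5 : raff (cert t 0) p + raff (cert t 1) p + raff (cert t 2) p = mult t * (p 0 - 1) := by
    obtain ⟨-, h6⟩ := cert_sum t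
    have e0 := h6 0
    have e1 := h6 1
    have e2 := h6 2
    have e3 := h6 3
    simp only [Matrix.cons_val_zero, Matrix.cons_val_one, Matrix.cons_val] at e0 e1 e2 e3
    have f0 : (cert t 0 0 : ℝ) + cert t 1 0 + cert t 2 0 = mult t := by exact_mod_cast e0
    have f1 : (cert t 0 1 : ℝ) + cert t 1 1 + cert t 2 1 = 0 := by exact_mod_cast e1
    have f2 : (cert t 0 2 : ℝ) + cert t 1 2 + cert t 2 2 = 0 := by exact_mod_cast e2
    have f3 : (cert t 0 3 : ℝ) + cert t 1 3 + cert t 2 3 = -mult t := by exact_mod_cast e3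
    simp only [raff]
    linear_combination (p 0) * f0 + (p 1) * f1 + (p 2) * f2 + f3
  have h7 : 0 ≤ raff (cert t 0) p + raff (cert t 1) p + raff (cert t 2) p := by
    have hperm : ∀ (π : Fin 6) (j : Fin 3), ∃ i, prm π i = j := by decide
    have h8 : ∀ j, 0 ≤ raff (cert t j) p := by
      intro j
      obtain ⟨i, hi⟩ := hperm π j
      rw [← hi]
      exact h2 i
    have := h8 0
    have := h8 1
    have := h8 2
    linarith
  rw [h5] at h7
  have h9 : (0 : ℝ) < mult t := by exact_mod_cast (cert_sum t).1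
  have := nonneg_of_mul_nonneg_right h7 h9
  linarith

/-- weights -/
def wt : Fin 9 → Fin 9 → ℕ :=
  ![![0, 1, 0, 0, 1, 0, 0, 0, 0], ![0, 0, 0, 2, 1, 0, 2, 0, 1], ![0, 0, 0, 0, 14, 1, 0, 6, 1],
    ![0, 0, 7, 0, 15, 1, 1, 0, 0], ![15, 0, 16, 0, 0, 28, 13, 0, 0],
    ![0, 11, 0, 28, 0, 31, 52, 0, 0], ![7, 16, 0, 0, 0, 12, 5, 0, 0],
    ![31, 0, 0, 56, 0, 0, 37, 0, 52], ![24, 37, 0, 0, 0, 19, 0, 0, 10]]

theorem wt_pos : ∀ v : Fin 9, 0 < ∑ k, wt v k := by decide

theorem wt_sum : ∀ (v : Fin 9) (i : Fin 3),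
    2 * ∑ k, (wt v k : ℤ) * s k i = (∑ k, (wt v k : ℤ)) * ![1, 2, -1] i := by decide

theorem wt_avoid : ∀ i j : Fin 9, ∃ v : Fin 9, wt v i = 0 ∧ wt v j = 0 := by decide

/-- the point `(1/2, 1, -1/2)` -/
noncomputable def q : Fin 3 → ℝ := fun i => ((![1, 2, -1] i : ℤ) : ℝ) / 2

theorem q_mem (v : Fin 9) (A : Set (Fin 3 → ℝ)) (hA : ∀ k, wt v k ≠ 0 → r k ∈ A) :
    q ∈ convexHull ℝ A := by
  classical
  set t : Finset (Fin 9) := Finset.univ.filter fun k => wt v k ≠ 0 with ht
  have hW : (0 : ℝ) < ∑ k, (wt v k : ℝ) := by exact_mod_cast wt_pos v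
  have h1 : ∑ k ∈ t, (wt v k : ℝ) = ∑ k, (wt v k : ℝ) := by
    rw [ht, Finset.sum_filter]
    refine Finset.sum_congr rfl fun k _ => ?_
    split_ifs with h
    · rfl
    · push Not at h
      rw [h, Nat.cast_zero]
  have h2 : t.centerMass (fun k => (wt v k : ℝ)) r = q := by
    rw [Finset.centerMass, h1]
    ext i
    rw [Pi.smul_apply, Finset.sum_apply, smul_eq_mul]
    have h3 : ∑ k ∈ t, ((wt v k : ℝ) • r k) i = ∑ k, (wt v k : ℝ) * (s k i : ℝ) := by
      rw [ht, Finset.sum_filter]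
      refine Finset.sum_congr rfl fun k _ => ?_
      split_ifs with h
      · rfl
      · push Not at h
        rw [h, Nat.cast_zero, zero_mul]
    rw [h3]
    have h4 : 2 * ∑ k, (wt v k : ℝ) * (s k i : ℝ) = (∑ k, (wt v k : ℝ)) * ((![1, 2, -1] i : ℤ) : ℝ) := by
      have := wt_sum v i
      exact_mod_cast this
    rw [q]
    field_simp
    linarith
  rw [← h2]
  refine Finset.centerMass_mem_convexHull _ (fun k _ => Nat.cast_nonneg _) (by rw [h1]; exact hW)
    fun k hk => hA k (Finset.mem_filter.mp hk).2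

theorem q_core : q ∈ core 2 S := by
  classical
  intro T _ hc
  set I : Finset (Fin 9) := Finset.univ.filter fun k => r k ∈ T with hI
  have h1 : I.card ≤ 2 := by
    refine le_trans ?_ hc
    exact Finset.card_le_card_of_injOn r (fun x hx => (Finset.mem_filter.mp hx).2) r_inj.injOn
  obtain ⟨J, hIJ, hJ⟩ := Finset.exists_superset_card_eq (s := I) (n := 2) h1 (by simp)
  obtain ⟨i, j, -, hij⟩ := Finset.card_eq_two.mp hJ
  obtain ⟨v, hi, hj⟩ := wt_avoid i j
  refine q_mem v _ fun k hk => ⟨Finset.mem_coe.mpr ((mem_S _).mpr ⟨k, rfl⟩), fun hkT => ?_⟩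
  have h2 : k ∈ J := hIJ (Finset.mem_filter.mpr ⟨Finset.mem_univ _, hkT⟩)
  rw [hij, Finset.mem_insert, Finset.mem_singleton] at h2
  rcases h2 with rfl | rfl
  · exact hk hi
  · exact hk hj

theorem bad_three : Bad 3 3 := by
  refine ⟨S, ?_, conv_subset_core 3 (by norm_num) S, fun hle => ?_⟩
  · simp [S]
  · have h1 := hle q_core
    have h2 : Convex ℝ {x : Fin 3 → ℝ | 1 ≤ x 0} := by
      intro x hx y hy a b ha hb hab
      simp only [Set.mem_ofPred_eq, Pi.add_apply, Pi.smul_apply, smul_eq_mul] at hx hy ⊢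
      nlinarith
    have h3 : q ∈ {x : Fin 3 → ℝ | 1 ≤ x 0} := convexHull_min (fun p hp => safe p hp) h2 h1
    simp only [Set.mem_ofPred_eq, q] at h3
    norm_num at h3

end Run7.h554.Tv
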