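import Pool.Agent.Run7.h554.Tv.Defs

/-!
# General facts: inclusion, and lifting the dimension
-/

set_option autoImplicit false

namespace Run7.h554.Tv

open Finset

/-- `core` is convex -/
theorem convex_core {d : ℕ} (σ : ℕ) (S : Finset (Fin d → ℝ)) : Convex ℝ (core σ S) := by
  have h : core σ S = ⋂ T : Finset (Fin d → ℝ), ⋂ _ : T ⊆ S, ⋂ _ : T.card ≤ σ,
      convexHull ℝ ((S : Set (Fin d → ℝ)) \ (T : Set (Fin d → ℝ))) := by
    ext p
    simp [core]
  rw [h]
  exact convex_iInter fun T => convex_iInter fun _ => convex_iInter fun _ => convex_convexHull ℝ _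

/-- `conv D_τ(S) ⊆ core_{τ-1}(S)` -/
theorem conv_subset_core {d : ℕ} (τ : ℕ) (hτ : 1 ≤ τ) (S : Finset (Fin d → ℝ)) :
    convexHull ℝ (tverbergPoints τ S) ⊆ core (τ - 1) S := by
  refine convexHull_min ?_ (convex_core _ S)
  rintro p ⟨P, hd, hU, hp⟩ T hT hc
  -- some part is disjoint from `T`
  have : ∃ i, Disjoint (P i) (T : Set (Fin d → ℝ)) := by
    by_contra hcon
    push Not at hcon
    have h1 : ∀ i, ∃ x ∈ T, x ∈ P i := by
      intro i
      have := hcon i
      rw [Set.not_disjoint_iff] at this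
      obtain ⟨x, hx, hx'⟩ := this
      exact ⟨x, hx', hx⟩
    choose f hf hf' using h1
    have hinj : Function.Injective f := by
      intro i j hij
      by_contra hne
      exact (Set.disjoint_left.mp (hd i j hne)) (hf' i) (hij ▸ hf' j)
    have := Finset.card_le_card_of_injOn (s := Finset.univ) (t := T) f (fun i _ => hf i)
      hinj.injOn
    rw [Finset.card_univ, Fintype.card_fin] at this
    omega
  obtain ⟨i, hi⟩ := this
  refine convexHull_mono ?_ (hp i)
  intro x hx
  refine ⟨?_, fun h => Set.disjoint_left.mp hi hx h⟩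
  rw [← hU]
  exact Set.mem_iUnion.mpr ⟨i, hx⟩

/-- faces: a point of `conv A` on which a functional that is nonnegative on `A` vanishes is in
the convex hull of the zeros of the functional -/
theorem face {E : Type*} [AddCommGroup E] [Module ℝ E] (A : Set E) (f : E →ₗ[ℝ] ℝ)
    (hA : ∀ a ∈ A, 0 ≤ f a) (p : E) (hp : p ∈ convexHull ℝ A) (h0 : f p = 0) :
    p ∈ convexHull ℝ (A ∩ {x | f x = 0}) := by
  rw [_root_.convexHull_eq] at hp
  obtain ⟨ι, t, w, z, hw, hw1, hz, rfl⟩ := hp
  rw [Finset.centerMass_eq_of_sum_1 _ _ hw1] at h0 ⊢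
  have h1 : ∀ i ∈ t, w i * f (z i) = 0 := by
    have h2 : ∑ i ∈ t, w i * f (z i) = 0 := by
      rw [← h0, map_sum]
      exact Finset.sum_congr rfl fun i _ => by rw [map_smul, smul_eq_mul]
    exact (Finset.sum_eq_zero_iff_of_nonneg fun i hi => mul_nonneg (hw i hi) (hA _ (hz i hi))).mp h2
  classical
  have h3 : ∑ i ∈ t, w i • z i = ∑ i ∈ t with f (z i) = 0, w i • z i := by
    rw [Finset.sum_filter]
    refine Finset.sum_congr rfl fun i hi => ?_
    split_ifs with h
    · rfl
    · have := h1 i hi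
      rcases mul_eq_zero.mp this with h4 | h4
      · rw [h4, zero_smul]
      · exact absurd h4 h
  have h4 : ∑ i ∈ t with f (z i) = 0, w i = 1 := by
    rw [Finset.sum_filter, ← hw1]
    refine Finset.sum_congr rfl fun i hi => ?_
    split_ifs with h
    · rfl
    · have := h1 i hi
      rcases mul_eq_zero.mp this with h4 | h4
      · exact h4.symm
      · exact absurd h4 h
  rw [h3]
  rw [← Finset.centerMass_eq_of_sum_1 _ _ h4]
  refine Finset.centerMass_mem_convexHull _ (fun i hi => hw i (Finset.mem_filter.mp hi).1)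
    (by rw [h4]; exact one_pos) fun i hi => ?_
  exact ⟨hz i (Finset.mem_filter.mp hi).1, (Finset.mem_filter.mp hi).2⟩

/-- the failure of the equality, in a form that can be lifted -/
def Bad (τ d : ℕ) : Prop :=
  ∃ S : Finset (Fin d → ℝ), S.card = (τ - 1) * (d + 1) + 1 ∧
    convexHull ℝ (tverbergPoints τ S) ⊂ core (τ - 1) S

/-- embedding as the hyperplane `x 0 = 0` -/
def emb (d : ℕ) : (Fin d → ℝ) →ₗ[ℝ] (Fin (d + 1) → ℝ) where
  toFun x := Fin.cons 0 x
  map_add' x y := by
    ext i
    refine Fin.cases ?_ (fun j => ?_) i <;> simp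
  map_smul' c x := by
    ext i
    refine Fin.cases ?_ (fun j => ?_) i <;> simp

theorem emb_zero (d : ℕ) (x : Fin d → ℝ) : emb d x 0 = 0 := rfl

theorem emb_succ (d : ℕ) (x : Fin d → ℝ) (i : Fin d) : emb d x i.succ = x i := rfl

theorem emb_inj (d : ℕ) : Function.Injective (emb d) := by
  intro x y h
  ext i
  have := congrFun h i.succ
  simpa [emb_succ] using this

theorem emb_tail {d : ℕ} (x : Fin (d + 1) → ℝ) (h : x 0 = 0) : emb d (Fin.tail x) = x := by
  ext i
  refine Fin.cases ?_ (fun j => ?_) i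
  · rw [emb_zero, h]
  · rw [emb_succ]
    rfl

/-- the projection forgetting the first coordinate -/
def tl (d : ℕ) : (Fin (d + 1) → ℝ) →ₗ[ℝ] (Fin d → ℝ) where
  toFun x := Fin.tail x
  map_add' _ _ := rfl
  map_smul' _ _ := rfl

/-- the new points -/
noncomputable def pt (d : ℕ) (k : ℕ) : Fin (d + 1) → ℝ := Fin.cons ((k : ℝ) + 1) 0

theorem pt_zero (d k : ℕ) : pt d k 0 = (k : ℝ) + 1 := rfl

theorem pt_inj (d : ℕ) : Function.Injective (pt d) := by
  intro k l h
  have := congrFun h 0
  rw [pt_zero, pt_zero] at this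
  exact_mod_cast add_right_cancel this

theorem bad_succ (τ : ℕ) (hτ : 1 ≤ τ) (d : ℕ) (h : Bad τ d) : Bad τ (d + 1) := by
  classical
  obtain ⟨S, hc, hS⟩ := h
  obtain ⟨q, hq, hq'⟩ := Set.exists_of_ssubset hS
  set N : Finset (Fin (d + 1) → ℝ) := (Finset.range (τ - 1)).image (pt d) with hN
  set S' : Finset (Fin (d + 1) → ℝ) := S.image (emb d) ∪ N with hS'
  have hdisj : Disjoint (S.image (emb d)) N := by
    rw [Finset.disjoint_left]
    intro x hx hx'
    obtain ⟨s, -, rfl⟩ := Finset.mem_image.mp hx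
    obtain ⟨k, -, hk⟩ := Finset.mem_image.mp hx'
    have := congrFun hk 0
    rw [pt_zero, emb_zero] at this
    have h0 : (0 : ℝ) ≤ k := Nat.cast_nonneg k
    linarith
  have hNc : N.card = τ - 1 := by
    rw [hN, Finset.card_image_of_injective _ (pt_inj d), Finset.card_range]
  refine ⟨S', ?_, ?_⟩
  · rw [hS', Finset.card_union_of_disjoint hdisj, Finset.card_image_of_injective _ (emb_inj d), hc,
      hNc]
    ring
  refine ⟨conv_subset_core τ hτ S', fun hle => hq' ?_⟩
  -- every Tverberg point of `S'` comes from one of `S`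
  have key : tverbergPoints τ S' ⊆ emb d '' tverbergPoints τ S := by
    rintro p ⟨P, hd, hU, hp⟩
    have hnn : ∀ i, ∀ x ∈ P i, 0 ≤ x 0 := by
      intro i x hx
      have hx' : x ∈ (S' : Set (Fin (d + 1) → ℝ)) := by
        rw [← hU]
        exact Set.mem_iUnion.mpr ⟨i, hx⟩
      rw [hS', Finset.coe_union] at hx'
      rcases hx' with hx' | hx'
      · obtain ⟨s, -, rfl⟩ := Finset.mem_image.mp (Finset.mem_coe.mp hx')
        rw [emb_zero]
      · obtain ⟨k, -, rfl⟩ := Finset.mem_image.mp (Finset.mem_coe.mp hx')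
        rw [pt_zero]
        positivity
    -- a part without new points
    have hfree : ∃ i, Disjoint (P i) (N : Set (Fin (d + 1) → ℝ)) := by
      by_contra hcon
      push Not at hcon
      have h1 : ∀ i, ∃ x ∈ N, x ∈ P i := by
        intro i
        have := hcon i
        rw [Set.not_disjoint_iff] at this
        obtain ⟨x, hx, hx'⟩ := this
        exact ⟨x, hx', hx⟩
      choose f hf hf' using h1
      have hinj : Function.Injective f := by
        intro i j hij
        by_contra hne
        exact (Set.disjoint_left.mp (hd i j hne)) (hf' i) (hij ▸ hf' j)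
      have := Finset.card_le_card_of_injOn (s := Finset.univ) (t := N) f (fun i _ => hf i)
        hinj.injOn
      rw [Finset.card_univ, Fintype.card_fin, hNc] at this
      omega
    obtain ⟨i₀, hi₀⟩ := hfree
    have hp0 : p 0 = 0 := by
      have h1 : P i₀ ⊆ {x | x 0 = 0} := by
        intro x hx
        have hx' : x ∈ (S' : Set (Fin (d + 1) → ℝ)) := by
          rw [← hU]
          exact Set.mem_iUnion.mpr ⟨i₀, hx⟩
        rw [hS', Finset.coe_union] at hx'
        rcases hx' with hx' | hx'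
        · obtain ⟨s, -, rfl⟩ := Finset.mem_image.mp (Finset.mem_coe.mp hx')
          exact emb_zero d s
        · exact absurd hx' (Set.disjoint_left.mp hi₀ hx)
      have h2 : Convex ℝ {x : Fin (d + 1) → ℝ | x 0 = 0} := by
        intro x hx y hy a b _ _ _
        simp only [Set.mem_ofPred_eq, Pi.add_apply, Pi.smul_apply, smul_eq_mul] at hx hy ⊢
        rw [hx, hy]
        ring
      exact convexHull_min h1 h2 (hp i₀)
    refine ⟨Fin.tail p, ?_, emb_tail p hp0⟩
    refine ⟨fun i => emb d ⁻¹' P i, fun i j hij => ?_, ?_, fun i => ?_⟩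
    · exact Set.disjoint_left.mpr fun x hx hx' => Set.disjoint_left.mp (hd i j hij) hx hx'
    · ext x
      rw [Set.mem_iUnion]
      have h1 : (∃ i, x ∈ emb d ⁻¹' P i) ↔ emb d x ∈ (S' : Set (Fin (d + 1) → ℝ)) := by
        rw [← hU, Set.mem_iUnion]
        exact Iff.rfl
      rw [h1, hS', Finset.coe_union, Finset.coe_image]
      constructor
      · rintro (h2 | h2)
        · obtain ⟨s, hs, hs'⟩ := h2
          rwa [← emb_inj d hs']
        · obtain ⟨k, -, hk⟩ := Finset.mem_image.mp (Finset.mem_coe.mp h2)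
          have := congrFun hk 0
          rw [pt_zero, emb_zero] at this
          have h0 : (0 : ℝ) ≤ k := Nat.cast_nonneg k
          exfalso
          linarith
      · intro h2
        exact Or.inl ⟨x, h2, rfl⟩
    · have h1 := face (P i) (LinearMap.proj (0 : Fin (d + 1))) (hnn i) p (hp i) hp0
      have h2 : Fin.tail p ∈ tl d '' convexHull ℝ
          (P i ∩ {x | (LinearMap.proj (0 : Fin (d + 1)) : (Fin (d + 1) → ℝ) →ₗ[ℝ] ℝ) x = 0}) :=
        ⟨p, h1, rfl⟩
      rw [(tl d).image_convexHull] at h2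
      refine convexHull_mono ?_ h2
      rintro _ ⟨x, ⟨hx, hx0⟩, rfl⟩
      change emb d (Fin.tail x) ∈ P i
      rw [emb_tail x hx0]
      exact hx
  -- the point `emb q` is in the core of `S'`
  have hq1 : emb d q ∈ core (τ - 1) S' := by
    intro T hT hTc
    set T₀ : Finset (Fin d → ℝ) := S.filter fun x => emb d x ∈ T with hT₀
    have h1 : T₀ ⊆ S := Finset.filter_subset _ _
    have h2 : T₀.card ≤ τ - 1 := by
      refine le_trans ?_ hTc
      exact Finset.card_le_card_of_injOn (emb d) (fun x hx => (Finset.mem_filter.mp hx).2)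
        (emb_inj d).injOn
    have h3 := hq T₀ h1 h2
    have h4 : emb d q ∈ emb d '' convexHull ℝ ((S : Set (Fin d → ℝ)) \ (T₀ : Set (Fin d → ℝ))) :=
      ⟨q, h3, rfl⟩
    rw [(emb d).image_convexHull] at h4
    refine convexHull_mono ?_ h4
    rintro _ ⟨x, ⟨hx, hx'⟩, rfl⟩
    refine ⟨?_, fun h => hx' ?_⟩
    · rw [hS']
      exact Finset.mem_coe.mpr (Finset.mem_union_left _ (Finset.mem_image_of_mem _ hx))
    · exact Finset.mem_coe.mpr (Finset.mem_filter.mpr ⟨hx, h⟩)
  have h5 := convexHull_mono key (hle hq1)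
  rw [← (emb d).image_convexHull] at h5
  obtain ⟨x, hx, hx'⟩ := h5
  rwa [← emb_inj d hx']

theorem bad_of_le (τ : ℕ) (hτ : 1 ≤ τ) (d₀ : ℕ) (h : Bad τ d₀) (d : ℕ) (hd : d₀ ≤ d) : Bad τ d := by
  induction d, hd using Nat.le_induction with
  | base => exact h
  | succ n _ ih => exact bad_succ τ hτ n ih

end Run7.h554.Tv
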